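import Pool.Agent.Lib.H8.Bin2

set_option maxHeartbeats 400000

namespace Pool.Agent.Results.MP_8976f7_nt.No
open PowerSeries Pool.Agent.Lib.H8.Bin2
open Pool.Agent.Lib.H8.Col4 (itr)

/-- The power series 1/(1 - x^d) over the integers (d ≥ 1). -/
noncomputable def geo (d : ℕ) : ℤ⟦X⟧ := invOfUnit (1 - X ^ d) 1

/-- A_{m,k}(n): coefficient of x^n in ∏_i (1-x^{m^i})^{-k}; the factors with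
i > n are 1 modulo x^{n+1}, so they are left out. -/
noncomputable def A (m k n : ℕ) : ℤ :=
  coeff n (∏ i ∈ Finset.range (n + 1), geo (m ^ i) ^ k)

/-- The exceptional set E_p. -/
def E (p : ℕ) : Set ℕ := {k | ∃ s u : ℕ, 1 ≤ u ∧ u ≤ p - 1 ∧ k = (p - 1) * (u * p ^ s - 1)}

def T : List (List ℤ) := [itr 16 [1],
    [1, 15, 26, 14, 21, 19, 0, 0, 0, 0, 0, 0, 0, 0, 0, 0, 0],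
    [1, 16, 24, 16, 28, 16, 8, 16, 6, 16, 8, 16, 28, 16, 24, 16, 1],
    [1, 17, 5, 5, 3, 19, 23, 23, 0, 0, 0, 0, 0, 0, 0, 0, 0],
    [1, 18, 1, 24, 2, 12, 10, 24, 29, 18, 21, 0, 0, 0, 0, 0, 0],
    [1, 25, 2, 26, 29, 13, 0, 0, 0, 0, 0, 0, 0, 0, 0, 0, 0],
    [1, 26, 23, 12, 31, 26, 9, 0, 0, 0, 0, 0, 0, 0, 0, 0, 0],
    [1, 31, 10, 30, 5, 19, 0, 0, 0, 0, 0, 0, 0, 0, 0, 0, 0],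
    [2, 8, 28, 8, 18, 0, 0, 0, 0, 0, 0, 0, 0, 0, 0, 0, 0],
    [2, 24, 12, 24, 2, 0, 0, 0, 0, 0, 0, 0, 0, 0, 0, 0, 0],
    [4, 0, 8, 0, 20, 0, 0, 0, 0, 0, 0, 0, 0, 0, 0, 0, 0],
    [4, 4, 8, 8, 20, 20, 0, 0, 0, 0, 0, 0, 0, 0, 0, 0, 0],
    [4, 16, 24, 16, 4, 0, 0, 0, 0, 0, 0, 0, 0, 0, 0, 0, 0],
    [4, 28, 8, 24, 20, 12, 0, 0, 0, 0, 0, 0, 0, 0, 0, 0, 0],
    [6, 8, 4, 8, 6, 0, 0, 0, 0, 0, 0, 0, 0, 0, 0, 0, 0],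
    [6, 24, 20, 24, 22, 0, 0, 0, 0, 0, 0, 0, 0, 0, 0, 0, 0],
    [8, 0, 16, 0, 8, 0, 0, 0, 0, 0, 0, 0, 0, 0, 0, 0, 0],
    [10, 8, 12, 8, 26, 0, 0, 0, 0, 0, 0, 0, 0, 0, 0, 0, 0],
    [10, 24, 28, 24, 10, 0, 0, 0, 0, 0, 0, 0, 0, 0, 0, 0, 0],
    [11, 5, 30, 26, 7, 17, 0, 0, 0, 0, 0, 0, 0, 0, 0, 0, 0],
    [11, 11, 23, 7, 1, 1, 29, 13, 0, 0, 0, 0, 0, 0, 0, 0, 0],
    [11, 14, 3, 8, 22, 20, 30, 8, 31, 14, 31, 0, 0, 0, 0, 0, 0],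
    [11, 14, 13, 4, 21, 14, 19, 0, 0, 0, 0, 0, 0, 0, 0, 0, 0],
    [11, 19, 22, 30, 31, 15, 0, 0, 0, 0, 0, 0, 0, 0, 0, 0, 0],
    [11, 21, 14, 10, 23, 17, 0, 0, 0, 0, 0, 0, 0, 0, 0, 0, 0],
    [12, 0, 24, 0, 28, 0, 0, 0, 0, 0, 0, 0, 0, 0, 0, 0, 0],
    [12, 12, 24, 24, 28, 28, 0, 0, 0, 0, 0, 0, 0, 0, 0, 0, 0],
    [12, 16, 8, 16, 12, 0, 0, 0, 0, 0, 0, 0, 0, 0, 0, 0, 0],
    [12, 20, 24, 8, 28, 4, 0, 0, 0, 0, 0, 0, 0, 0, 0, 0, 0],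
    [13, 3, 18, 22, 17, 23, 0, 0, 0, 0, 0, 0, 0, 0, 0, 0, 0],
    [13, 5, 26, 18, 25, 9, 0, 0, 0, 0, 0, 0, 0, 0, 0, 0, 0],
    [13, 18, 11, 28, 19, 18, 21, 0, 0, 0, 0, 0, 0, 0, 0, 0, 0],
    [13, 19, 2, 6, 1, 23, 0, 0, 0, 0, 0, 0, 0, 0, 0, 0, 0],
    [13, 29, 1, 1, 7, 23, 11, 11, 0, 0, 0, 0, 0, 0, 0, 0, 0],
    [14, 8, 20, 8, 14, 0, 0, 0, 0, 0, 0, 0, 0, 0, 0, 0, 0],
    [14, 24, 4, 24, 30, 0, 0, 0, 0, 0, 0, 0, 0, 0, 0, 0, 0],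
    [16, 0, 0, 0, 16, 0, 0, 0, 0, 0, 0, 0, 0, 0, 0, 0, 0],
    [17, 1, 2, 10, 13, 21, 0, 0, 0, 0, 0, 0, 0, 0, 0, 0, 0],
    [17, 7, 26, 30, 5, 11, 0, 0, 0, 0, 0, 0, 0, 0, 0, 0, 0],
    [17, 23, 10, 14, 21, 11, 0, 0, 0, 0, 0, 0, 0, 0, 0, 0, 0],
    [18, 8, 28, 8, 2, 0, 0, 0, 0, 0, 0, 0, 0, 0, 0, 0, 0],
    [18, 24, 12, 24, 18, 0, 0, 0, 0, 0, 0, 0, 0, 0, 0, 0, 0],
    [19, 3, 6, 30, 7, 31, 0, 0, 0, 0, 0, 0, 0, 0, 0, 0, 0],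
    [19, 5, 30, 10, 31, 1, 0, 0, 0, 0, 0, 0, 0, 0, 0, 0, 0],
    [19, 21, 14, 26, 15, 1, 0, 0, 0, 0, 0, 0, 0, 0, 0, 0, 0],
    [20, 0, 8, 0, 4, 0, 0, 0, 0, 0, 0, 0, 0, 0, 0, 0, 0],
    [20, 12, 8, 24, 4, 28, 0, 0, 0, 0, 0, 0, 0, 0, 0, 0, 0],
    [20, 16, 24, 16, 20, 0, 0, 0, 0, 0, 0, 0, 0, 0, 0, 0, 0],
    [20, 20, 8, 8, 4, 4, 0, 0, 0, 0, 0, 0, 0, 0, 0, 0, 0],
    [21, 3, 2, 22, 25, 23, 0, 0, 0, 0, 0, 0, 0, 0, 0, 0, 0],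
    [21, 5, 10, 18, 1, 9, 0, 0, 0, 0, 0, 0, 0, 0, 0, 0, 0],
    [21, 19, 18, 6, 9, 23, 0, 0, 0, 0, 0, 0, 0, 0, 0, 0, 0],
    [22, 8, 4, 8, 22, 0, 0, 0, 0, 0, 0, 0, 0, 0, 0, 0, 0],
    [22, 24, 20, 24, 6, 0, 0, 0, 0, 0, 0, 0, 0, 0, 0, 0, 0],
    [23, 1, 6, 2, 19, 13, 0, 0, 0, 0, 0, 0, 0, 0, 0, 0, 0],
    [23, 6, 1, 20, 9, 6, 31, 0, 0, 0, 0, 0, 0, 0, 0, 0, 0],
    [23, 7, 14, 6, 27, 19, 0, 0, 0, 0, 0, 0, 0, 0, 0, 0, 0],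
    [23, 9, 6, 18, 19, 21, 0, 0, 0, 0, 0, 0, 0, 0, 0, 0, 0],
    [23, 17, 22, 18, 3, 13, 0, 0, 0, 0, 0, 0, 0, 0, 0, 0, 0],
    [23, 23, 19, 3, 5, 5, 17, 1, 0, 0, 0, 0, 0, 0, 0, 0, 0],
    [23, 25, 22, 2, 3, 21, 0, 0, 0, 0, 0, 0, 0, 0, 0, 0, 0],
    [23, 31, 14, 22, 27, 11, 0, 0, 0, 0, 0, 0, 0, 0, 0, 0, 0],
    [24, 0, 16, 0, 24, 0, 0, 0, 0, 0, 0, 0, 0, 0, 0, 0, 0],
    [26, 8, 12, 8, 10, 0, 0, 0, 0, 0, 0, 0, 0, 0, 0, 0, 0],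
    [26, 24, 28, 24, 26, 0, 0, 0, 0, 0, 0, 0, 0, 0, 0, 0, 0],
    [28, 0, 24, 0, 12, 0, 0, 0, 0, 0, 0, 0, 0, 0, 0, 0, 0],
    [28, 4, 24, 8, 12, 20, 0, 0, 0, 0, 0, 0, 0, 0, 0, 0, 0],
    [28, 16, 8, 16, 28, 0, 0, 0, 0, 0, 0, 0, 0, 0, 0, 0, 0],
    [28, 28, 24, 24, 12, 12, 0, 0, 0, 0, 0, 0, 0, 0, 0, 0, 0],
    [30, 8, 20, 8, 30, 0, 0, 0, 0, 0, 0, 0, 0, 0, 0, 0, 0],
    [30, 24, 4, 24, 14, 0, 0, 0, 0, 0, 0, 0, 0, 0, 0, 0, 0]]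

lemma hT : ∀ p ∈ T, p.length + 5 ≤ 2 * 17 ∧ ∀ r < 2, nxt 32 17 5 p r ∈ T := by decide +kernel

lemma hT2 : ∀ p ∈ T, p.getD 0 0 % 32 ≠ 0 := by decide +kernel

lemma main (n : ℕ) : ¬ (2 : ℤ) ^ 5 ∣ A 2 11 n := by
  obtain ⟨F, hF, hS⟩ := exF 0 11
  have h1 := cong F 0 11 16 5 4 hF (by norm_num) (by norm_num) n
  obtain ⟨p, hp, h2⟩ := aut 32 17 5 T hT n (itr 16 [1]) (by simp [T])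
  have h3 := hT2 p hp
  have h4 := hS n
  rw [pow_zero, one_mul] at h4
  have h5 : A 2 11 n = coeff n F := h4
  rw [h5]
  norm_num at h1 ⊢
  omega

lemma notE : 11 ∉ E 2 := by
  rintro ⟨s, u, h1, h2, h3⟩
  have hu : u = 1 := by omega
  subst hu
  have h4 : 2 ^ s = 12 := by omega
  have h5 : s < 4 := by
    by_contra h
    have : 2 ^ 4 ≤ 2 ^ s := Nat.pow_le_pow_right (by norm_num) (by omega)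
    omega
  interval_cases s <;> omega

theorem result : (11 ∉ E 2 ∧ ∀ n, emultiplicity (2 : ℤ) (A 2 11 n) ≤ 4) ∧
    ¬ ∀ p k : ℕ, p.Prime → 0 < k → k ∉ E p →
      ∀ B : ℕ, ∃ n, (B : ℕ∞) < emultiplicity (p : ℤ) (A p k n) := by
  have key : ∀ n, emultiplicity (2 : ℤ) (A 2 11 n) ≤ 4 := fun n => by
    have := emultiplicity_lt_iff_not_dvd.2 (main n)
    exact Order.le_of_lt_add_one (by exact_mod_cast this)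
  refine ⟨⟨notE, key⟩, fun h => ?_⟩
  obtain ⟨n, hn⟩ := h 2 11 Nat.prime_two (by norm_num) notE 4
  exact absurd (key n) (not_le.2 (by exact_mod_cast hn))

end Pool.Agent.Results.MP_8976f7_nt.No
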